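import Mathlib

/-!
# Exchange of one vector (MP_5ee2d0_ag, Theorem P, part (2))
-/

set_option autoImplicit false

namespace Pool.Agent.H36.HP

open Submodule

variable {K V : Type} [Field K] [AddCommGroup V] [Module K V] [FiniteDimensional K V]

/-- In a sequence of non zero vectors of a finite dimensional space the first `j` are independent, the
next one is in their span, and it can replace one of them. -/
theorem exchange (s : ℕ → V) (hs : ∀ i, s i ≠ 0) :
    ∃ j, 0 < j ∧ j ≤ Module.finrank K V ∧ LinearIndependent K (fun i : Fin j => s i) ∧
      ∃ i : Fin j, LinearIndependent K (Function.update (fun i : Fin j => s i) i (s j)) ∧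
        span K (Set.range (Function.update (fun i : Fin j => s i) i (s j))) =
          span K (Set.range fun i : Fin j => s i) := by
  classical
  have hex : ∃ j, ¬ LinearIndependent K (fun i : Fin j => s i) := by
    refine ⟨Module.finrank K V + 1, fun h => ?_⟩
    have := h.fintype_card_le_finrank
    simp at this
  obtain ⟨j, hj⟩ : ∃ j, Nat.find hex = j + 1 := by
    rcases hn : Nat.find hex with _ | j
    · exfalso
      have h := Nat.find_spec hex
      rw [hn] at h
      exact h linearIndependent_empty_type
    · exact ⟨j, rfl⟩
  have hnot : ¬ LinearIndependent K (fun i : Fin (j + 1) => s i) := by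
    have h := Nat.find_spec hex
    rwa [hj] at h
  have hind : LinearIndependent K (fun i : Fin j => s i) := by
    have h := Nat.find_min hex (m := j) (by omega)
    push Not at h
    exact h
  have hcard := hind.fintype_card_le_finrank
  rw [Fintype.card_fin] at hcard
  have hmem : s j ∈ span K (Set.range fun i : Fin j => s i) := by
    by_contra hc
    apply hnot
    rw [linearIndependent_finSucc']
    refine ⟨?_, ?_⟩
    · exact hind
    · exact hc
  have hj0 : 0 < j := by
    rcases Nat.eq_zero_or_pos j with h0 | h0
    · subst h0
      exfalso
      apply hs 0
      simpa using hmem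
    · exact h0
  obtain ⟨c, hc⟩ := (Submodule.mem_span_range_iff_exists_fun K).1 hmem
  obtain ⟨i, hi⟩ : ∃ i, c i ≠ 0 := by
    by_contra h
    push Not at h
    apply hs j
    rw [← hc]
    exact Finset.sum_eq_zero fun l _ => by rw [h l, zero_smul]
  have hspan : span K (Set.range (Function.update (fun i : Fin j => s i) i (s j))) =
      span K (Set.range fun i : Fin j => s i) := by
    apply le_antisymm
    · rw [span_le]
      rintro _ ⟨l, rfl⟩
      by_cases hl : l = i
      · subst hl
        rw [Function.update_self]
        exact hmem
      · rw [Function.update_of_ne hl]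
        exact subset_span ⟨l, rfl⟩
    · have hother : ∀ l, l ≠ i → s l ∈
          span K (Set.range (Function.update (fun i : Fin j => s i) i (s j))) := by
        intro l hl
        refine subset_span ⟨l, ?_⟩
        simp [Function.update_of_ne hl]
      have hsj : s j ∈ span K (Set.range (Function.update (fun i : Fin j => s i) i (s j))) :=
        subset_span ⟨i, by simp⟩
      rw [span_le]
      rintro _ ⟨l, rfl⟩
      by_cases hl : l = i
      · subst hl
        have h1 : s l = (c l)⁻¹ • (s j - ∑ m ∈ Finset.univ.erase l, c m • s m) := by
          rw [← hc, ← Finset.add_sum_erase _ _ (Finset.mem_univ l), add_sub_cancel_right, smul_smul,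
            inv_mul_cancel₀ hi, one_smul]
        show s l ∈ _
        rw [h1]
        refine smul_mem _ _ (sub_mem hsj (sum_mem fun m hm => smul_mem _ _ (hother m ?_)))
        exact (Finset.mem_erase.1 hm).1
      · exact hother l hl
  refine ⟨j, hj0, hcard, hind, i, ?_, hspan⟩
  rw [linearIndependent_iff_card_eq_finrank_span, Set.finrank, hspan,
    ← Set.finrank, ← linearIndependent_iff_card_eq_finrank_span]
  exact hind

end Pool.Agent.H36.HP
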