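import Pool.Agent.H36.HP.Part2
import Pool.Agent.H83.HP.Lambda
import Pool.Agent.H83.HN.Para

/-!
# Theorem P, part (2), on the special member `Y` (MP_5ee2d0_ag)

An isotropic nef class `L` on `Y`, with a parabolic automorphism and without other prime divisors
orthogonal to it: `H^0(Y, L^m)` is not zero for some `m` with `0 < m ≤ bnd n`.
-/

set_option autoImplicit false

namespace Pool.Agent.H36.HP

open Submodule Pool.Agent.H83.HN Pool.Agent.H83.HP

/-- a non zero element of a lattice is a multiple of a primitive one -/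
theorem exists_primitive {Lam : Type} [AddCommGroup Lam] [Module.Free ℤ Lam] [Module.Finite ℤ Lam]
    (L : Lam) (hL : L ≠ 0) : ∃ (L0 : Lam) (d : ℕ), 0 < d ∧ L = d • L0 ∧
      ∀ x : Lam, ∀ a b : ℤ, a ≠ 0 → a • x = b • L → ∃ c : ℤ, x = c • L0 := by
  classical
  let I : Ideal ℤ := LinearMap.range (Module.Dual.eval ℤ Lam L)
  obtain ⟨g, hg⟩ : ∃ g : ℤ, I = Ideal.span {g} := (IsPrincipalIdealRing.principal I).principal
  have hdvd : ∀ φ : Module.Dual ℤ Lam, g ∣ φ L := by
    intro φ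
    have h1 : φ L ∈ I := ⟨φ, rfl⟩
    rw [hg] at h1
    exact Ideal.mem_span_singleton.1 h1
  obtain ⟨φ0, hφ0⟩ : ∃ φ0 : Module.Dual ℤ Lam, φ0 L = g := by
    have h1 : g ∈ I := by rw [hg]; exact Ideal.mem_span_singleton_self g
    obtain ⟨φ, hφ⟩ := h1
    exact ⟨φ, hφ⟩
  let B := Module.Free.chooseBasis ℤ Lam
  have hg0 : g ≠ 0 := by
    rintro rfl
    apply hL
    apply B.ext_elem
    intro i
    have h1 := hdvd (B.coord i)
    rw [zero_dvd_iff] at h1
    simpa using h1
  -- the quotient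
  have hk : ∀ i, ∃ k : ℤ, B.repr L i = g * k := fun i => hdvd (B.coord i)
  choose k hk using hk
  have hL1 : L = g • ∑ i, k i • B i := by
    rw [Finset.smul_sum]
    conv_lhs => rw [← B.sum_repr L]
    refine Finset.sum_congr rfl fun i _ => ?_
    rw [hk i, smul_smul]
  set L1 := ∑ i, k i • B i with hL1'
  have hφ1 : φ0 L1 = 1 := by
    have h1 : φ0 L = g * φ0 L1 := by
      conv_lhs => rw [hL1]
      rw [map_zsmul, smul_eq_mul]
    rw [hφ0] at h1
    exact (mul_eq_left₀ hg0).1 h1.symm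
  have hx : ∀ x : Lam, ∀ a b : ℤ, a ≠ 0 → a • x = b • L → x = φ0 x • L1 := by
    intro x a b ha hab
    have h1 : a * φ0 x = b * g := by
      have := congrArg φ0 hab
      rw [map_zsmul, map_zsmul, hφ0] at this
      simpa using this
    have h2 : a • x = a • (φ0 x • L1) := by
      rw [hab, smul_smul, h1, mul_smul, ← hL1]
    have h3 : Function.Injective fun y : Lam => a • y := smul_right_injective Lam ha
    exact h3 h2
  rcases lt_or_gt_of_ne hg0 with hneg | hpos
  · refine ⟨-L1, g.natAbs, Int.natAbs_pos.2 hg0, ?_, fun x a b ha hab => ⟨-φ0 x, ?_⟩⟩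
    · rw [← natCast_zsmul, Int.natCast_natAbs, abs_of_neg hneg, smul_neg, neg_smul, neg_neg]
      exact hL1
    · rw [smul_neg, neg_smul, neg_neg]
      exact hx x a b ha hab
  · refine ⟨L1, g.natAbs, Int.natAbs_pos.2 hg0, ?_, fun x a b ha hab => ⟨φ0 x, hx x a b ha hab⟩⟩
    rw [← natCast_zsmul, Int.natCast_natAbs, abs_of_pos hpos]
    exact hL1

variable {n : ℕ} {Lam : Type} [AddCommGroup Lam] {q : Lam → Lam → ℤ}

/-- a class with a nef multiple is nef -/
theorem nef_of_nsmul (M : Manifold n Lam q) {x : Lam} (hx : x ∈ M.NS) {d : ℕ} (hd : 0 < d)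
    (h : d • x ∈ M.Nef) : x ∈ M.Nef := by
  obtain ⟨a, ha⟩ := M.exists_ample
  obtain ⟨m, hm, hma⟩ := M.ample_dom a ha x hx
  have hadd : ∀ y ∈ M.Ample, ∀ z ∈ M.Ample, y + z ∈ M.Ample := fun y hy z hz =>
    M.ample_add y hy z (M.ample_nef hz)
  have hmul : ∀ y ∈ M.Ample, ∀ k : ℕ, 0 < k → k • y ∈ M.Ample := by
    intro y hy k hk
    induction k with
    | zero => omega
    | succ k ih =>
      rcases Nat.eq_zero_or_pos k with h0 | h0
      · subst h0; simpa using hy
      · rw [succ_nsmul]; exact hadd _ (ih h0) _ hy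
  have hma' : m • a ∈ M.Ample := hmul a ha m hm
  -- small multiples
  have hsmall : ∀ r : ℕ, r < d → d • (m • a) + r • x ∈ M.Ample := by
    intro r hr
    have e : d • (m • a) + r • x = (d - r) • (m • a) + r • (m • a + x) := by
      obtain ⟨s, rfl⟩ : ∃ s, d = r + s := ⟨d - r, by omega⟩
      rw [Nat.add_sub_cancel_left, add_nsmul, nsmul_add]
      abel
    rw [e]
    rcases Nat.eq_zero_or_pos r with h0 | h0
    · subst h0
      simpa using hmul _ hma' d hd
    · exact hadd _ (hmul _ hma' _ (by omega)) _ (hmul _ hma _ h0)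
  refine M.nef_limit (d • (m • a)) (hmul _ hma' d hd) x hx fun k => ?_
  have hk : k • x = (k % d) • x + (k / d) • (d • x) := by
    rw [← mul_nsmul', ← add_nsmul]
    congr 1
    have := Nat.mod_add_div k d
    rw [mul_comm] at this
    exact this.symm
  rw [hk, ← add_assoc]
  have hnef : ∀ j : ℕ, d • (m • a) + (k % d) • x + j • (d • x) ∈ M.Ample := by
    intro j
    induction j with
    | zero => simpa using hsmall _ (Nat.mod_lt _ hd)
    | succ j ih => rw [succ_nsmul, ← add_assoc]; exact M.ample_add _ ih _ h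
  exact hnef _

/-- powers of a non zero section -/
theorem sec_nsmul (M : Manifold n Lam q) {x : Lam} (h : M.Sec x ≠ ⊥) {d : ℕ} (hd : 0 < d) :
    M.Sec (d • x) ≠ ⊥ := by
  obtain ⟨s, hs, hs0⟩ := (Submodule.ne_bot_iff _).1 h
  obtain ⟨y, hy⟩ : ∃ y, s y ≠ 0 := by
    by_contra hc
    push Not at hc
    exact hs0 (funext hc)
  have hp : ∀ k : ℕ, s ^ (k + 1) ∈ M.Sec ((k + 1) • x) := by
    intro k
    induction k with
    | zero => simpa using hs
    | succ k ih =>
      rw [pow_succ, succ_nsmul]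
      exact M.sec_mul _ _ _ ih _ hs
  obtain ⟨k, rfl⟩ : ∃ k, d = k + 1 := ⟨d - 1, by omega⟩
  refine (Submodule.ne_bot_iff _).2 ⟨_, hp k, fun h0 => ?_⟩
  have h1 := congrFun h0 y
  rw [Pi.pow_apply, Pi.zero_apply] at h1
  exact hy (pow_eq_zero_iff (by omega) |>.1 h1)

/-- COHOMOLOGY of the multiples of the class `L`, and holomorphic forms with values in them. -/
structure Coh (M : Manifold n Lam q) (F : Forms M) (L : Lam) extends Twisted M L where
  /-- the dimension of `H^i(Y, x)` -/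
  h : ℕ → Lam → ℕ
  /-- RIEMANN-ROCH (Hirzebruch; Fujiki, Huybrechts): the Euler characteristic of `x` is a polynomial
  in `q(x)`, with constant term `n + 1` -/
  rr : ∀ x ∈ M.NS, q x x = 0 → ∑ i ∈ Finset.range (2 * n + 1), (-1 : ℤ) ^ i * h i x = n + 1
  /-- SKODA: if all Lelong numbers of the current with minimal singularities are zero, then the
  multiplier ideals of all multiples of the metric are trivial; DEMAILLY, PETERNELL and SCHNEIDER:
  hard Lefschetz theorem -/
  dps : (∀ y, F.lel L y = 0) → ∀ i m : ℕ, i ≤ 2 * n → 0 < m → h i (m • L) ≠ 0 →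
    ∃ v, v ≠ 0 ∧ sec (2 * n - i) m v

variable (q_symm : ∀ x y, q x y = q y x) (q_add : ∀ x y z, q (x + y) z = q x z + q y z)

include q_symm q_add in
/-- the Lelong numbers are zero, for a class with the multiple `L` -/
theorem lel_zero_of_para {M : Manifold n Lam q} (F : Forms M) {L A L0 : Lam} {r : ℕ} (hr : 0 < r)
    (π : Para M L A r) (hA : A ∈ M.Ample) (hL0 : L0 ∈ M.Nef) (h0 : L0 ≠ 0) {d : ℕ} (hd : 0 < d)
    (hL : L = d • L0) (hLL : q L0 L0 = 0) (y : M.P) : F.lel L0 y = 0 := by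
  classical
  set v : Fin r → ℤ := Pi.single ⟨0, hr⟩ 1 with hv
  have hv0 : v ≠ 0 := by
    intro h
    have := congrFun h ⟨0, hr⟩
    rw [hv, Pi.single_eq_same] at this
    exact one_ne_zero this
  set b := π.b v with hb
  have hbb := π.b_neg v hv0
  rw [← hb] at hbb
  have hbL : q b L0 = 0 := by
    have h1 := π.b_L v
    rw [← hb, hL, q_symm, q_nsmul q_add, q_symm] at h1
    rcases mul_eq_zero.1 h1 with h2 | h2
    · exact absurd (by exact_mod_cast h2) hd.ne'
    · exact h2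
  have hLx : ∀ x, q L x = d * q L0 x := fun x => by rw [hL, q_nsmul q_add]
  have hLA : 0 < q L A := by
    rw [hLx, q_symm]
    exact mul_pos (by exact_mod_cast hd) (M.ample_nef_q A hA L0 hL0 h0)
  refine F.lel_eq_zero (π.rho v) hA (π.b_NS v) hL0 (2 * q L A) (-(2 * q b b) * d)
    (-(2 * q b b * q L A) * d) ?_ ?_ ?_ ?_ ?_ y
  · refine mul_pos ?_ (by exact_mod_cast hd)
    nlinarith
  · ring
  · rw [π.pull_eq, ← hb, π.b_A v, hL]
    module
  · rw [π.pull_eq, ← hb, hLx, q_symm L0 b, hbL, hL]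
    module
  · rw [π.pull_eq, ← hb, hLx, hLL, hbL]
    simp

include q_symm q_add in
/-- **Part (2) on `Y`**: a section of a bounded multiple of an isotropic nef class. -/
theorem on_Y [Module.Free ℤ Lam] [Module.Finite ℤ Lam] (M : Manifold n Lam q) (F : Forms M)
    (hcoh : ∀ x ∈ M.Nef, q x x = 0 → x ≠ 0 → Nonempty (Coh M F x)) {L A : Lam} (hL : L ∈ M.Nef)
    (hLL : q L L = 0) (hL0 : L ≠ 0) (hNS : ∀ x, ∀ a : ℕ, 0 < a → a • x ∈ M.NS → x ∈ M.NS)
    (hprime : ∀ D ∈ M.Prime, q D L = 0 → ∃ a b : ℕ, 0 < a ∧ 0 < b ∧ a • D = b • L)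
    (hA : A ∈ M.Ample) {r : ℕ} (hr : 0 < r) (π : Para M L A r) :
    ∃ m : ℕ, 0 < m ∧ m ≤ bnd n ∧ M.Sec (m • L) ≠ ⊥ := by
  obtain ⟨L0, d, hd, hLd, hprim⟩ := exists_primitive L hL0
  have h0 : L0 ≠ 0 := by
    rintro rfl
    exact hL0 (by rw [hLd, smul_zero])
  have hL0NS : L0 ∈ M.NS := hNS L0 d hd (by rw [← hLd]; exact M.nef_NS hL)
  have hL0nef : L0 ∈ M.Nef := nef_of_nsmul M hL0NS hd (by rw [← hLd]; exact hL)
  have hd' : (d : ℤ) ≠ 0 := by exact_mod_cast hd.ne'
  have hx0 : ∀ x, q x L = d * q x L0 := by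
    intro x
    rw [hLd, q_symm, q_nsmul q_add, q_symm]
  have hLL0 : q L0 L0 = 0 := by
    have h1 := hLL
    rw [hx0, q_symm, hx0] at h1
    rcases mul_eq_zero.1 h1 with h2 | h2
    · exact absurd h2 hd'
    · rcases mul_eq_zero.1 h2 with h3 | h3
      · exact absurd h3 hd'
      · exact h3
  obtain ⟨C⟩ := hcoh L0 hL0nef hLL0 h0
  have hlel := lel_zero_of_para q_symm q_add F hr π hA hL0nef h0 hd hLd hLL0
  obtain ⟨m, hm, hmb, hsec⟩ := exists_sec q_symm q_add M C.toTwisted hL0nef hLL0 h0 (by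
    intro D hD hDL
    obtain ⟨a, b, ha, _, hab⟩ := hprime D hD (by rw [hx0, hDL, mul_zero])
    exact hprim D a b (by exact_mod_cast ha.ne') (by
      rw [natCast_zsmul, natCast_zsmul]; exact hab)) (by
    intro m hm
    have h1 := C.rr (m • L0) (M.NS.nsmul_mem hL0NS m) (by
      rw [q_nsmul q_add, q_symm, q_nsmul q_add, hLL0, mul_zero, mul_zero])
    obtain ⟨i, hi, hi0⟩ : ∃ i ∈ Finset.range (2 * n + 1), C.h i (m • L0) ≠ 0 := by
      by_contra hc
      push Not at hc
      rw [Finset.sum_eq_zero fun i hi => by rw [hc i hi]; simp] at h1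
      omega
    have hi' : i ≤ 2 * n := by
      have := Finset.mem_range.1 hi
      omega
    obtain ⟨v, hv0, hv⟩ := C.dps hlel i m hi' hm hi0
    exact ⟨2 * n - i, by omega, v, hv0, hv⟩)
  refine ⟨m, hm, hmb, ?_⟩
  have h2 := sec_nsmul M hsec hd
  rw [hLd, ← mul_nsmul', mul_comm, mul_nsmul']
  exact h2

end Pool.Agent.H36.HP
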