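import Pool.Agent.H36.HP.Exchange
import Pool.Agent.H83.HN.Iface

/-!
# Theorem P, part (2): a section of a bounded multiple (MP_5ee2d0_ag)

`Y` is a projective hyperkaehler manifold of dimension `2 n`, `L` a primitive isotropic nef class such
that the prime divisors orthogonal to `L` are multiples of `L`, and for every `m > 0` there is a
non zero section of `Ω^p ⊗ L^m` for some `p`. Then `H^0(Y, L^m)` is not zero for some `m` with
`0 < m ≤ bnd n`.
-/

set_option autoImplicit false

namespace Pool.Agent.H36.HP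

open Submodule Pool.Agent.H83.HN

/-- the bound: `C(2n,n) ((2n+1) C(2n,n) + 1)` -/
def bnd (n : ℕ) : ℕ := (2 * n).choose n * ((2 * n + 1) * (2 * n).choose n + 1)

variable {n : ℕ} {Lam : Type} [AddCommGroup Lam] {q : Lam → Lam → ℤ}

/-- HOLOMORPHIC FORMS with values in the multiples of the class `L`. `K` is the function field of `Y`;
after the choice of a rational section of the line bundle of class `L` the sections of `Ω^p ⊗ L^m` are
vectors of `Ω^p ⊗ K = K^N`, `N = C(2n, p)`. -/
structure Twisted (M : Manifold n Lam q) (L : Lam) where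
  K : Type
  [fld : Field K]
  /-- the sections of `Ω^p ⊗ L^m` -/
  sec : (p m : ℕ) → (Fin ((2 * n).choose p) → K) → Prop
  /-- the first Chern class of the saturated subsheaf of `Ω^p` with generic fibre `V` -/
  det : (p : ℕ) → Submodule K (Fin ((2 * n).choose p) → K) → Lam
  det_NS : ∀ p V, det p V ∈ M.NS
  /-- YAU: `Ω^p` is polystable of slope zero with respect to every ample class `a`; by FUJIKI the degree
  `c_1 a^(2n-1)` is a positive multiple of `q(c_1, a)`. -/
  slope : ∀ p V, ∀ a ∈ M.Ample, q (det p V) a ≤ 0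
  /-- the exterior product of linearly independent maps `L^(-m_i) -> F` is a non zero map to the
  determinant of `F` -/
  wedge : ∀ p (k : ℕ) (v : Fin k → Fin ((2 * n).choose p) → K) (m : Fin k → ℕ),
    LinearIndependent K v → (∀ i, sec p (m i) (v i)) →
    M.Sec ((∑ i, m i) • L + det p (span K (Set.range v))) ≠ ⊥

attribute [instance] Twisted.fld

section Form

variable (q_symm : ∀ x y, q x y = q y x) (q_add : ∀ x y z, q (x + y) z = q x z + q y z)

include q_add in
lemma q_zsmul (c : ℤ) (x z : Lam) : q (c • x) z = c * q x z := by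
  have := map_zsmul (AddMonoidHom.mk' (fun x => q x z) (fun a b => q_add a b z)) c x
  simpa using this

include q_add in
lemma q_nsmul (c : ℕ) (x z : Lam) : q (c • x) z = c * q x z := by
  have := map_nsmul (AddMonoidHom.mk' (fun x => q x z) (fun a b => q_add a b z)) c x
  simpa using this

include q_add in
lemma q_zero (z : Lam) : q 0 z = 0 := by
  have := q_nsmul q_add 0 0 z
  simpa using this

include q_symm q_add in
/-- effective classes: the degree is not negative, and the ones orthogonal to `L` are multiples -/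
lemma closure_orth (M : Manifold n Lam q) {L : Lam} (hL : L ∈ M.Nef) (hL0 : L ≠ 0)
    (horth : ∀ D ∈ M.Prime, q D L = 0 → ∃ c : ℤ, D = c • L) (x : Lam)
    (hx : x ∈ AddSubmonoid.closure M.Prime) :
    0 ≤ q x L ∧ (q x L = 0 → ∃ c : ℕ, x = c • L) := by
  induction hx using AddSubmonoid.closure_induction with
  | mem D hD =>
    refine ⟨M.prime_nef D hD L hL, fun h => ?_⟩
    obtain ⟨c, hc⟩ := horth D hD h
    obtain ⟨a, ha⟩ := M.exists_ample
    have h1 := M.prime_ample D hD a ha
    have h2 := M.ample_nef_q a ha L hL hL0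
    rw [hc, q_zsmul q_add, q_symm L a] at h1
    have h3 : 0 < c := by
      by_contra h4
      have : c * q a L ≤ 0 := mul_nonpos_of_nonpos_of_nonneg (not_lt.1 h4) h2.le
      omega
    refine ⟨c.toNat, ?_⟩
    rw [hc]
    have h4 : ((c.toNat : ℕ) : ℤ) = c := Int.toNat_of_nonneg h3.le
    rw [← natCast_zsmul, h4]
  | zero => exact ⟨by rw [q_zero q_add], fun _ => ⟨0, by simp⟩⟩
  | add x y _ _ hx hy =>
    rw [q_add]
    refine ⟨add_nonneg hx.1 hy.1, fun h => ?_⟩
    have h1 := hx.1
    have h2 := hy.1
    obtain ⟨c, hc⟩ := hx.2 (by omega)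
    obtain ⟨d, hd⟩ := hy.2 (by omega)
    exact ⟨c + d, by rw [hc, hd, add_nsmul]⟩

include q_symm q_add in
/-- **Part (2) on `Y`.** -/
theorem exists_sec (M : Manifold n Lam q) {L : Lam} (T : Twisted M L) (hL : L ∈ M.Nef)
    (hLL : q L L = 0) (hL0 : L ≠ 0) (horth : ∀ D ∈ M.Prime, q D L = 0 → ∃ c : ℤ, D = c • L)
    (hv : ∀ m : ℕ, 0 < m → ∃ p, p ≤ 2 * n ∧ ∃ v, v ≠ 0 ∧ T.sec p m v) :
    ∃ m : ℕ, 0 < m ∧ m ≤ bnd n ∧ M.Sec (m • L) ≠ ⊥ := by
  classical
  choose! p hp using hv
  set N := (2 * n).choose n with hN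
  set B := (2 * n + 1) * N + 1 with hB
  -- pigeonhole
  obtain ⟨p0, -, hcard⟩ := Finset.exists_lt_card_fiber_of_mul_lt_card_of_maps_to
    (s := Finset.Icc 1 B) (t := Finset.range (2 * n + 1)) (f := p) (n := N) (by
      intro m hm
      have := (hp m (by have := Finset.mem_Icc.1 hm; omega)).1
      rw [Finset.mem_range]
      omega) (by
      rw [Finset.card_range, Nat.card_Icc]
      omega)
  set F := (Finset.Icc 1 B).filter fun m => p m = p0 with hF
  have hFm : ∀ m ∈ F, 0 < m ∧ m ≤ B ∧ p m = p0 := by
    intro m hm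
    rw [hF, Finset.mem_filter, Finset.mem_Icc] at hm
    exact ⟨by omega, hm.1.2, hm.2⟩
  have hv' : ∀ m ∈ F, ∃ v : Fin ((2 * n).choose p0) → T.K, v ≠ 0 ∧ T.sec p0 m v := by
    intro m hm
    have h1 := (hp m (hFm m hm).1).2
    rw [(hFm m hm).2.2] at h1
    exact h1
  choose! v hv0 hsec using hv'
  let e := F.orderEmbOfFin rfl
  have hcard0 : 0 < F.card := by omega
  let mm : ℕ → ℕ := fun i => if h : i < F.card then e ⟨i, h⟩ else e ⟨0, hcard0⟩
  have hmm : ∀ i, mm i ∈ F := by
    intro i
    by_cases h : i < F.card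
    · simp only [mm, dif_pos h]
      exact Finset.orderEmbOfFin_mem F rfl _
    · simp only [mm, dif_neg h]
      exact Finset.orderEmbOfFin_mem F rfl _
  have hmono : ∀ i j, i < j → j < F.card → mm i < mm j := by
    intro i j hij hj
    simp only [mm, dif_pos hj, dif_pos (hij.trans hj)]
    exact e.strictMono hij
  obtain ⟨j, hj0, hjle, hind, i, hind', hspan⟩ := exchange (K := T.K) (fun i => v (mm i))
    (fun i => hv0 _ (hmm i))
  have hjN : j ≤ N := by
    refine hjle.trans ?_
    rw [Module.finrank_fin_fun]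
    exact Nat.choose_le_centralBinom p0 n
  have hjF : j < F.card := by omega
  have w1 := T.wedge p0 j (fun i : Fin j => v (mm i)) (fun i => mm i) hind
    (fun i => hsec _ (hmm i))
  have w2 := T.wedge p0 j (Function.update (fun i : Fin j => v (mm i)) i (v (mm j)))
    (Function.update (fun i : Fin j => mm i) i (mm j)) hind' (by
      intro l
      by_cases hl : l = i
      · subst hl
        simp only [Function.update_self]
        exact hsec _ (hmm j)
      · simp only [Function.update_of_ne hl]
        exact hsec _ (hmm l))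
  rw [hspan] at w2
  set W := T.det p0 (span T.K (Set.range fun i : Fin j => v (mm i))) with hW
  -- the sums
  have s1 : ∑ l : Fin j, mm l = mm i + ∑ l ∈ Finset.univ \ {i}, mm l := by
    rw [← Finset.sum_sdiff (Finset.subset_univ {i}), Finset.sum_singleton, add_comm]
  have s2 : ∑ l : Fin j, Function.update (fun i : Fin j => mm i) i (mm j) l =
      mm j + ∑ l ∈ Finset.univ \ {i}, mm l :=
    Finset.sum_update_of_mem (Finset.mem_univ i) _ _
  set R := ∑ l ∈ Finset.univ \ {i}, mm l with hR
  rw [s1] at w1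
  rw [s2] at w2
  have hR' : R ≤ (j - 1) * B := by
    have h1 : R ≤ ∑ l ∈ (Finset.univ \ {i} : Finset (Fin j)), B :=
      Finset.sum_le_sum fun l _ => (hFm _ (hmm l)).2.1
    have h2 : (Finset.univ \ {i} : Finset (Fin j)).card = j - 1 := by
      rw [Finset.card_sdiff_of_subset (Finset.subset_univ _), Finset.card_univ, Fintype.card_fin,
        Finset.card_singleton]
    rw [Finset.sum_const, h2, smul_eq_mul] at h1
    exact h1
  have hS' : mm j + R ≤ bnd n := by
    have h1 := (hFm _ (hmm j)).2.1
    have h2 : (j - 1) * B + B = j * B := by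
      obtain ⟨k, rfl⟩ : ∃ k, j = k + 1 := ⟨j - 1, by omega⟩
      rw [Nat.add_sub_cancel]
      ring
    have h3 : j * B ≤ N * B := Nat.mul_le_mul_right _ hjN
    have h4 : bnd n = N * B := rfl
    omega
  have hij : mm i < mm j := hmono i j i.2 hjF
  -- ample classes
  obtain ⟨a, ha⟩ := M.exists_ample
  have haL := M.ample_nef_q a ha L hL hL0
  have hLNS := M.nef_NS hL
  have hWNS : W ∈ M.NS := T.det_NS _ _
  have hWL : q W L ≤ 0 := by
    have hk : ∀ k : ℕ, a + k • L ∈ M.Ample := by
      intro k
      induction k with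
      | zero => simpa using ha
      | succ k ih =>
        rw [succ_nsmul, ← add_assoc]
        exact M.ample_add _ ih _ hL
    have hk' : ∀ k : ℕ, q W a + k * q W L ≤ 0 := by
      intro k
      have h1 := T.slope p0 (span T.K (Set.range fun i : Fin j => v (mm i))) _ (hk k)
      rw [q_symm, q_add, q_nsmul q_add, q_symm a, q_symm L] at h1
      exact h1
    by_contra hc
    push Not at hc
    have h1 := hk' ((q W a).natAbs + 1)
    push_cast at h1
    have h2 : |q W a| + 1 ≤ (|q W a| + 1) * q W L := le_mul_of_one_le_right (by positivity) hc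
    have h3 := neg_abs_le (q W a)
    omega
  -- the first divisor
  have hx1 := M.effective _ (add_mem (M.NS.nsmul_mem hLNS _) hWNS) w1
  obtain ⟨h1, h2⟩ := closure_orth q_symm q_add M hL hL0 horth _ hx1
  have h3 : q ((mm i + R) • L + W) L = q W L := by
    rw [q_add, q_nsmul q_add, hLL, mul_zero, zero_add]
  rw [h3] at h1 h2
  obtain ⟨c, hc⟩ := h2 (le_antisymm hWL h1)
  have hWc : W = ((c : ℤ) - ((mm i + R : ℕ) : ℤ)) • L := by
    rw [sub_smul, natCast_zsmul, natCast_zsmul, ← hc]
    abel
  have hcS : c ≤ mm i + R := by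
    have h4 := T.slope p0 (span T.K (Set.range fun i : Fin j => v (mm i))) a ha
    rw [← hW, hWc, q_zsmul q_add, q_symm L a] at h4
    by_contra h5
    have h6 : 0 < ((c : ℤ) - ((mm i + R : ℕ) : ℤ)) * q a L :=
      mul_pos (by push_cast; omega) haL
    omega
  refine ⟨mm j - mm i + c, by omega, by omega, ?_⟩
  have h7 : (mm j + R) • L + W = (mm j - mm i + c) • L := by
    rw [hWc, ← natCast_zsmul, ← natCast_zsmul, ← add_smul]
    congr 1
    push_cast [Nat.cast_sub hij.le]
    ring
  rw [← h7]
  exact w2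

end Form

end Pool.Agent.H36.HP
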